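import Mathlib

/-!
Helper file (helper50) for MP_d16438_co, PointwiseLaw: clique colourings of abstract graphs:
merging, OR products, disjoint sums and trimming.
-/

set_option autoImplicit false

namespace Pool.Dia50b

open Finset

variable {T T' : Type*}

/-- `S` is a clique with `t` elements. -/
def Clq (G : T → T → Prop) (t : ℕ) (S : Finset T) : Prop :=
  S.card = t ∧ ∀ x ∈ S, ∀ y ∈ S, x ≠ y → G x y

/-- `U` has a colouring with `N` colours without monochromatic `t`-clique. -/
def ColOn (G : T → T → Prop) (U : Finset T) (t N : ℕ) : Prop :=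
  ∃ col : T → ℕ, (∀ x ∈ U, col x < N) ∧
    ∀ S ⊆ U, Clq G t S → ∃ x ∈ S, ∃ y ∈ S, col x ≠ col y

theorem ColOn.mono {G : T → T → Prop} {U : Finset T} {t N N' : ℕ} (h : ColOn G U t N)
    (hN : N ≤ N') : ColOn G U t N' := by
  obtain ⟨col, h1, h2⟩ := h
  exact ⟨col, fun x hx => (h1 x hx).trans_le hN, h2⟩

theorem ColOn.subset {G : T → T → Prop} {U V : Finset T} {t N : ℕ} (h : ColOn G U t N)
    (hV : V ⊆ U) : ColOn G V t N := by
  obtain ⟨col, h1, h2⟩ := h
  exact ⟨col, fun x hx => h1 x (hV hx), fun S hS => h2 S (hS.trans hV)⟩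

theorem Clq.exists_subset {G : T → T → Prop} {t : ℕ} {S : Finset T}
    (h : ∀ x ∈ S, ∀ y ∈ S, x ≠ y → G x y) (ht : t ≤ S.card) : ∃ S' ⊆ S, Clq G t S' := by
  obtain ⟨S', h1, h2⟩ := Finset.exists_subset_card_eq ht
  exact ⟨S', h1, h2, fun x hx y hy => h x (h1 hx) y (h1 hy)⟩

/-- Larger cliques are easier to destroy. -/
theorem ColOn.up {G : T → T → Prop} {U : Finset T} {r t N : ℕ} (h : ColOn G U r N)
    (hrt : r ≤ t) : ColOn G U t N := by
  obtain ⟨col, h1, h2⟩ := h
  refine ⟨col, h1, fun S hS hC => ?_⟩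
  obtain ⟨S', hS', hC'⟩ := Clq.exists_subset (t := r) hC.2 (by rw [hC.1]; exact hrt)
  obtain ⟨x, hx, y, hy, hne⟩ := h2 S' (hS'.trans hS) hC'
  exact ⟨x, hS' hx, y, hS' hy, hne⟩

/-- Merging `m` colour classes. -/
theorem ColOn.merge {G : T → T → Prop} {U : Finset T} {r t N : ℕ} (m : ℕ) (hm : 1 ≤ m)
    (hmt : m * (r - 1) < t) (hr : 1 ≤ r) (h : ColOn G U r N) :
    ColOn G U t ((N + m - 1) / m) := by
  classical
  obtain ⟨col, h1, h2⟩ := h
  refine ⟨fun x => col x / m, ?_, ?_⟩
  · intro x hx
    have h3 := h1 x hx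
    have h4 : (col x / m + 1) * m ≤ N + m - 1 := by
      have := Nat.div_mul_le_self (col x) m
      rw [add_mul, one_mul]
      omega
    exact (Nat.le_div_iff_mul_le (by omega)).2 h4
  · intro S hS hC
    by_contra hcon
    push Not at hcon
    have hne : S.Nonempty := by
      rw [← Finset.card_pos, hC.1]; omega
    obtain ⟨x0, hx0⟩ := hne
    set q := col x0 / m with hq
    have hmaps : ∀ x ∈ S, col x ∈ Finset.Ico (q * m) (q * m + m) := by
      intro x hx
      have h3 := hcon x hx x0 hx0
      rw [Finset.mem_Ico]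
      have h4 := Nat.div_add_mod (col x) m
      have h5 := Nat.mod_lt (col x) (show 0 < m by omega)
      have h6 : m * (col x / m) = q * m := by rw [h3, mul_comm]
      omega
    have hcard : (Finset.Ico (q * m) (q * m + m)).card * (r - 1) < S.card := by
      rw [Nat.card_Ico, hC.1]
      have : q * m + m - q * m = m := by omega
      rw [this]; exact hmt
    obtain ⟨c, _, hc2⟩ := Finset.exists_lt_card_fiber_of_mul_lt_card_of_maps_to hmaps hcard
    obtain ⟨S', hS', hC'⟩ := Clq.exists_subset (G := G) (t := r) (S := S.filter (fun x => col x = c))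
      (fun x hx y hy hne => hC.2 x (Finset.mem_filter.1 hx).1 y (Finset.mem_filter.1 hy).1 hne)
      (by omega)
    obtain ⟨x, hx, y, hy, hne⟩ := h2 S' (hS'.trans ((Finset.filter_subset _ _).trans hS)) hC'
    apply hne
    rw [(Finset.mem_filter.1 (hS' hx)).2, (Finset.mem_filter.1 (hS' hy)).2]

/-- The OR product. -/
def Orp (G : T → T → Prop) (H : T' → T' → Prop) (p q : T × T') : Prop := G p.1 q.1 ∨ H p.2 q.2

/-- Lower bound: if `V` needs more than `N` colours for `j`-cliques (`j ≥ 1`), then a colouring of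
the product without monochromatic `t`-cliques, `t ≤ (m + 1) j`, gives a colouring of `U` without
monochromatic `(m + 1)`-cliques. -/
theorem orp_lower {G : T → T → Prop} {H : T' → T' → Prop} {U : Finset T} {V : Finset T'}
    {j m t N : ℕ} (hj : 1 ≤ j) (hV : ¬ ColOn H V j N) (ht : t ≤ (m + 1) * j)
    (h : ColOn (Orp G H) (U ×ˢ V) t N) : ColOn G U (m + 1) N := by
  classical
  obtain ⟨col, h1, h2⟩ := h
  have key : ∀ x ∈ U, ∃ Q ⊆ V, Clq H j Q ∧ ∀ y ∈ Q, ∀ y' ∈ Q, col (x, y) = col (x, y') := by
    intro x hx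
    by_contra hcon
    apply hV
    refine ⟨fun y => col (x, y), fun y hy => h1 _ (Finset.mk_mem_product hx hy), ?_⟩
    intro Q hQ hC
    by_contra hno
    push Not at hno
    exact hcon ⟨Q, hQ, hC, hno⟩
  choose! Q hQV hQC hQm using key
  have hVne : V.Nonempty := by
    by_contra hem
    rw [Finset.not_nonempty_iff_eq_empty] at hem
    apply hV
    rw [hem]
    refine ⟨fun _ => 0, fun x hx => absurd hx (Finset.notMem_empty _), ?_⟩
    intro S hS hC
    rw [Finset.subset_empty] at hS
    rw [hS] at hC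
    have := hC.1
    rw [Finset.card_empty] at this
    omega
  have : Nonempty T' := ⟨hVne.choose⟩
  have hy : ∀ x ∈ U, ∃ y, y ∈ Q x := by
    intro x hx
    have : (Q x).Nonempty := by
      rw [← Finset.card_pos, (hQC x hx).1]; omega
    exact this
  choose! y hyQ using hy
  refine ⟨fun x => col (x, y x), fun x hx => h1 _ (Finset.mk_mem_product hx (hQV x hx (hyQ x hx))), ?_⟩
  intro C hCU hC
  by_contra hcon
  push Not at hcon
  set W : Finset (T × T') := C.biUnion (fun x => (Q x).image (fun y => (x, y))) with hW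
  have hWmem : ∀ p, p ∈ W ↔ p.1 ∈ C ∧ p.2 ∈ Q p.1 := by
    intro p
    rw [hW, Finset.mem_biUnion]
    constructor
    · rintro ⟨x, hx, hp⟩
      obtain ⟨z, hz, rfl⟩ := Finset.mem_image.1 hp
      exact ⟨hx, hz⟩
    · rintro ⟨h3, h4⟩
      exact ⟨p.1, h3, Finset.mem_image.2 ⟨p.2, h4, rfl⟩⟩
  have hWcard : W.card = (m + 1) * j := by
    rw [hW, Finset.card_biUnion]
    · have : ∀ x ∈ C, ((Q x).image (fun y => (x, y))).card = j := by
        intro x hx
        rw [Finset.card_image_of_injective _ (fun a b hab => (Prod.ext_iff.1 hab).2)]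
        exact (hQC x (hCU hx)).1
      rw [Finset.sum_congr rfl this, Finset.sum_const, smul_eq_mul, hC.1]
    · intro x _ x' _ hne
      rw [Function.onFun, Finset.disjoint_left]
      intro p hp hp'
      obtain ⟨z, _, rfl⟩ := Finset.mem_image.1 hp
      obtain ⟨z', _, hz'⟩ := Finset.mem_image.1 hp'
      exact hne (Prod.ext_iff.1 hz').1.symm
  have hWclq : ∀ p ∈ W, ∀ q ∈ W, p ≠ q → Orp G H p q := by
    intro p hp q hq hne
    rw [hWmem] at hp hq
    by_cases h3 : p.1 = q.1
    · right
      apply (hQC p.1 (hCU hp.1)).2 _ hp.2 _ (by rw [h3]; exact hq.2)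
      intro h4
      exact hne (Prod.ext h3 h4)
    · left
      exact hC.2 _ hp.1 _ hq.1 h3
  obtain ⟨S, hSW, hS⟩ := Clq.exists_subset (t := t) hWclq (by rw [hWcard]; exact ht)
  obtain ⟨p, hp, q, hq, hne⟩ := h2 S (by
    intro p hp
    have := (hWmem p).1 (hSW hp)
    exact Finset.mem_product.2 ⟨hCU this.1, hQV _ (hCU this.1) this.2⟩) hS
  apply hne
  have hp' := (hWmem p).1 (hSW hp)
  have hq' := (hWmem q).1 (hSW hq)
  have e1 : col p = col (p.1, y p.1) := hQm _ (hCU hp'.1) _ hp'.2 _ (hyQ _ (hCU hp'.1))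
  have e2 : col q = col (q.1, y q.1) := hQm _ (hCU hq'.1) _ hq'.2 _ (hyQ _ (hCU hq'.1))
  rw [e1, e2]
  exact hcon _ hp'.1 _ hq'.1

/-- Upper bound: a proper colouring of `U` gives a colouring of the product without monochromatic
`r`-cliques if `V` has no `r`-clique. -/
theorem orp_upper {G : T → T → Prop} {H : T' → T' → Prop} {U : Finset T} {V : Finset T'}
    {r N : ℕ} (hGi : ∀ x ∈ U, ¬ G x x) (hGs : ∀ x y, G x y → G y x) (hHi : ∀ y ∈ V, ¬ H y y)
    (hV : ∀ S ⊆ V, ¬ Clq H r S)
    (h : ColOn G U 2 N) : ColOn (Orp G H) (U ×ˢ V) r N := by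
  classical
  obtain ⟨col, h1, h2⟩ := h
  refine ⟨fun p => col p.1, fun p hp => h1 _ (Finset.mem_product.1 hp).1, ?_⟩
  intro S hS hC
  by_contra hcon
  push Not at hcon
  have hG : ∀ p ∈ S, ∀ q ∈ S, ¬ G p.1 q.1 := by
    intro p hp q hq hG
    have hpU := (Finset.mem_product.1 (hS hp)).1
    have hqU := (Finset.mem_product.1 (hS hq)).1
    have hne : p.1 ≠ q.1 := by
      intro h3
      rw [h3] at hG
      exact hGi _ hqU hG
    obtain ⟨x, hx, y, hy, hxy⟩ := h2 {p.1, q.1} (by
      intro x hx
      rw [Finset.mem_insert, Finset.mem_singleton] at hx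
      rcases hx with rfl | rfl
      · exact hpU
      · exact hqU) ⟨Finset.card_pair hne, by
        intro x hx y hy hxy
        rw [Finset.mem_insert, Finset.mem_singleton] at hx hy
        rcases hx with rfl | rfl <;> rcases hy with rfl | rfl
        · exact absurd rfl hxy
        · exact hG
        · exact hGs _ _ hG
        · exact absurd rfl hxy⟩
    rw [Finset.mem_insert, Finset.mem_singleton] at hx hy
    have h5 := hcon p hp q hq
    rcases hx with rfl | rfl <;> rcases hy with rfl | rfl
    · exact hxy rfl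
    · exact hxy h5
    · exact hxy h5.symm
    · exact hxy rfl
  have hH : ∀ p ∈ S, ∀ q ∈ S, p ≠ q → H p.2 q.2 := by
    intro p hp q hq hne
    rcases hC.2 p hp q hq hne with h3 | h3
    · exact absurd h3 (hG p hp q hq)
    · exact h3
  have hinj : Set.InjOn Prod.snd (S : Set (T × T')) := by
    intro p hp q hq hpq
    by_contra hne
    have h3 := hH p hp q hq hne
    rw [hpq] at h3
    exact hHi _ (Finset.mem_product.1 (hS hq)).2 h3
  apply hV (S.image Prod.snd)
  · intro y hy
    obtain ⟨p, hp, rfl⟩ := Finset.mem_image.1 hy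
    exact (Finset.mem_product.1 (hS hp)).2
  · refine ⟨by rw [Finset.card_image_of_injOn hinj, hC.1], ?_⟩
    intro y hy y' hy' hne
    obtain ⟨p, hp, rfl⟩ := Finset.mem_image.1 hy
    obtain ⟨q, hq, rfl⟩ := Finset.mem_image.1 hy'
    exact hH p hp q hq (fun h => hne (by rw [h]))

/-- Disjoint sum. -/
def Sm (G : T → T → Prop) (H : T' → T' → Prop) : T ⊕ T' → T ⊕ T' → Prop
  | Sum.inl x, Sum.inl y => G x y
  | Sum.inr x, Sum.inr y => H x y
  | _, _ => False

theorem sm_iff {G : T → T → Prop} {H : T' → T' → Prop} {U : Finset T} {V : Finset T'}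
    {t N : ℕ} (ht : 2 ≤ t) :
    ColOn (Sm G H) (U.disjSum V) t N ↔ ColOn G U t N ∧ ColOn H V t N := by
  classical
  constructor
  · rintro ⟨col, h1, h2⟩
    constructor
    · refine ⟨fun x => col (Sum.inl x), fun x hx => h1 _ (Finset.inl_mem_disjSum.2 hx), ?_⟩
      intro S hS hC
      obtain ⟨p, hp, q, hq, hne⟩ := h2 (S.map Function.Embedding.inl) (by
        intro p hp
        obtain ⟨x, hx, rfl⟩ := Finset.mem_map.1 hp
        exact Finset.inl_mem_disjSum.2 (hS hx)) ⟨by rw [Finset.card_map, hC.1], by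
        intro p hp q hq hne
        obtain ⟨x, hx, rfl⟩ := Finset.mem_map.1 hp
        obtain ⟨y, hy, rfl⟩ := Finset.mem_map.1 hq
        exact hC.2 x hx y hy (fun h => hne (by rw [h]))⟩
      obtain ⟨x, hx, rfl⟩ := Finset.mem_map.1 hp
      obtain ⟨y, hy, rfl⟩ := Finset.mem_map.1 hq
      exact ⟨x, hx, y, hy, hne⟩
    · refine ⟨fun x => col (Sum.inr x), fun x hx => h1 _ (Finset.inr_mem_disjSum.2 hx), ?_⟩
      intro S hS hC
      obtain ⟨p, hp, q, hq, hne⟩ := h2 (S.map Function.Embedding.inr) (by
        intro p hp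
        obtain ⟨x, hx, rfl⟩ := Finset.mem_map.1 hp
        exact Finset.inr_mem_disjSum.2 (hS hx)) ⟨by rw [Finset.card_map, hC.1], by
        intro p hp q hq hne
        obtain ⟨x, hx, rfl⟩ := Finset.mem_map.1 hp
        obtain ⟨y, hy, rfl⟩ := Finset.mem_map.1 hq
        exact hC.2 x hx y hy (fun h => hne (by rw [h]))⟩
      obtain ⟨x, hx, rfl⟩ := Finset.mem_map.1 hp
      obtain ⟨y, hy, rfl⟩ := Finset.mem_map.1 hq
      exact ⟨x, hx, y, hy, hne⟩
  · rintro ⟨⟨c1, h1, h2⟩, c2, h3, h4⟩
    refine ⟨Sum.elim c1 c2, ?_, ?_⟩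
    · intro p hp
      rcases p with x | y
      · exact h1 x (Finset.inl_mem_disjSum.1 hp)
      · exact h3 y (Finset.inr_mem_disjSum.1 hp)
    · intro S hS hC
      have hne : S.Nonempty := by
        rw [← Finset.card_pos, hC.1]; omega
      obtain ⟨p0, hp0⟩ := hne
      rcases p0 with x0 | y0
      · have hall : ∀ p ∈ S, ∃ x, p = Sum.inl x := by
          intro p hp
          rcases p with x | y
          · exact ⟨x, rfl⟩
          · exact absurd (hC.2 _ hp0 _ hp (by simp)) (by simp [Sm])
        obtain ⟨x, hx, y, hy, hxy⟩ := h2 (S.preimage Sum.inl Sum.inl_injective.injOn) (by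
          intro x hx
          exact Finset.inl_mem_disjSum.1 (hS (Finset.mem_preimage.1 hx))) ⟨by
          rw [← hC.1, ← Finset.card_image_of_injective _ (Sum.inl_injective (β := T'))]
          congr 1
          ext p
          rw [Finset.mem_image]
          constructor
          · rintro ⟨x, hx, rfl⟩; exact Finset.mem_preimage.1 hx
          · intro hp
            obtain ⟨x, rfl⟩ := hall p hp
            exact ⟨x, Finset.mem_preimage.2 hp, rfl⟩, by
          intro x hx y hy hne
          exact hC.2 _ (Finset.mem_preimage.1 hx) _ (Finset.mem_preimage.1 hy)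
            (fun h => hne (Sum.inl_injective h))⟩
        exact ⟨_, Finset.mem_preimage.1 hx, _, Finset.mem_preimage.1 hy, hxy⟩
      · have hall : ∀ p ∈ S, ∃ x, p = Sum.inr x := by
          intro p hp
          rcases p with x | y
          · exact absurd (hC.2 _ hp0 _ hp (by simp)) (by simp [Sm])
          · exact ⟨y, rfl⟩
        obtain ⟨x, hx, y, hy, hxy⟩ := h4 (S.preimage Sum.inr Sum.inr_injective.injOn) (by
          intro x hx
          exact Finset.inr_mem_disjSum.1 (hS (Finset.mem_preimage.1 hx))) ⟨by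
          rw [← hC.1, ← Finset.card_image_of_injective _ (Sum.inr_injective (α := T))]
          congr 1
          ext p
          rw [Finset.mem_image]
          constructor
          · rintro ⟨x, hx, rfl⟩; exact Finset.mem_preimage.1 hx
          · intro hp
            obtain ⟨x, rfl⟩ := hall p hp
            exact ⟨x, Finset.mem_preimage.2 hp, rfl⟩, by
          intro x hx y hy hne
          exact hC.2 _ (Finset.mem_preimage.1 hx) _ (Finset.mem_preimage.1 hy)
            (fun h => hne (Sum.inr_injective h))⟩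
        exact ⟨_, Finset.mem_preimage.1 hx, _, Finset.mem_preimage.1 hy, hxy⟩

/-- Trimming: if at least `a` colours are needed, some subset needs exactly `a`. -/
theorem trim {G : T → T → Prop} {t : ℕ} (ht : 2 ≤ t) (a : ℕ) (ha : 1 ≤ a) (U : Finset T)
    (h : ¬ ColOn G U t (a - 1)) : ∃ V ⊆ U, ∀ N, ColOn G V t N ↔ a ≤ N := by
  classical
  induction U using Finset.strongInduction with
  | H U ih =>
    by_cases hex : ∃ W ⊂ U, ¬ ColOn G W t (a - 1)
    · obtain ⟨W, hW, hW2⟩ := hex
      obtain ⟨V, hV, hV2⟩ := ih W hW hW2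
      exact ⟨V, hV.trans hW.1, hV2⟩
    · push Not at hex
      refine ⟨U, Finset.Subset.refl _, fun N => ⟨fun hN => ?_, fun hN => ?_⟩⟩
      · by_contra hlt
        exact h (hN.mono (by omega))
      · have hne : U.Nonempty := by
          by_contra hem
          rw [Finset.not_nonempty_iff_eq_empty] at hem
          apply h
          rw [hem]
          refine ⟨fun _ => 0, fun x hx => absurd hx (Finset.notMem_empty _), ?_⟩
          intro S hS hC
          rw [Finset.subset_empty] at hS
          rw [hS] at hC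
          have := hC.1
          rw [Finset.card_empty] at this
          omega
        obtain ⟨x0, hx0⟩ := hne
        obtain ⟨col, h1, h2⟩ := hex (U.erase x0) (Finset.erase_ssubset hx0)
        refine ColOn.mono (N := a) ?_ hN
        refine ⟨fun x => if x = x0 then a - 1 else col x, ?_, ?_⟩
        · intro x hx
          show (if x = x0 then a - 1 else col x) < a
          by_cases hxx : x = x0
          · rw [if_pos hxx]; omega
          · rw [if_neg hxx]
            have := h1 x (Finset.mem_erase.2 ⟨hxx, hx⟩)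
            omega
        · intro S hS hC
          by_cases hxS : x0 ∈ S
          · have h2S : 1 < S.card := by rw [hC.1]; omega
            obtain ⟨y, hy, hyx⟩ := Finset.exists_mem_ne h2S x0
            refine ⟨x0, hxS, y, hy, ?_⟩
            show (if x0 = x0 then a - 1 else col x0) ≠ (if y = x0 then a - 1 else col y)
            rw [if_pos rfl, if_neg hyx]
            have := h1 y (Finset.mem_erase.2 ⟨hyx, hS hy⟩)
            omega
          · obtain ⟨x, hx, y, hy, hxy⟩ := h2 S (by
              intro x hx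
              exact Finset.mem_erase.2 ⟨fun hh => hxS (by rw [← hh]; exact hx), hS hx⟩) hC
            refine ⟨x, hx, y, hy, ?_⟩
            show (if x = x0 then a - 1 else col x) ≠ (if y = x0 then a - 1 else col y)
            rw [if_neg (fun hh => hxS (by rw [← hh]; exact hx)),
              if_neg (fun hh => hxS (by rw [← hh]; exact hy))]
            exact hxy

/-- No `t`-clique: one colour suffices. -/
theorem colOn_one {G : T → T → Prop} {U : Finset T} {t N : ℕ} (h : ∀ S ⊆ U, ¬ Clq G t S)
    (hN : 1 ≤ N) : ColOn G U t N :=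
  ⟨fun _ => 0, fun _ _ => hN, fun S hS hC => absurd hC (h S hS)⟩

/-- Nonempty sets need a colour. -/
theorem ColOn.pos {G : T → T → Prop} {U : Finset T} {t N : ℕ} (h : ColOn G U t N)
    (hU : U.Nonempty) : 1 ≤ N := by
  obtain ⟨col, h1, _⟩ := h
  obtain ⟨x, hx⟩ := hU
  have := h1 x hx
  omega

/-- A complete graph on `M` vertices needs `⌈M / m⌉` colours if no `m + 1` points are
monochromatic. -/
theorem complete_lower {G : T → T → Prop} {U : Finset T} {m N : ℕ}
    (hG : ∀ x ∈ U, ∀ y ∈ U, x ≠ y → G x y) (h : ColOn G U (m + 1) N) : U.card ≤ N * m := by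
  classical
  obtain ⟨col, h1, h2⟩ := h
  by_contra hlt
  push Not at hlt
  obtain ⟨c, _, hc2⟩ := Finset.exists_lt_card_fiber_of_mul_lt_card_of_maps_to
    (s := U) (t := Finset.range N) (f := col) (n := m)
    (fun x hx => Finset.mem_range.2 (h1 x hx)) (by rw [Finset.card_range]; exact hlt)
  obtain ⟨S', hS', hC'⟩ := Clq.exists_subset (G := G) (t := m + 1) (S := U.filter (fun x => col x = c))
    (fun x hx y hy hne => hG x (Finset.mem_filter.1 hx).1 y (Finset.mem_filter.1 hy).1 hne)
    (by omega)
  obtain ⟨x, hx, y, hy, hne⟩ := h2 S' (hS'.trans (Finset.filter_subset _ _)) hC'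
  apply hne
  rw [(Finset.mem_filter.1 (hS' hx)).2, (Finset.mem_filter.1 (hS' hy)).2]

end Pool.Dia50b
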