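import Mathlib

/-!
MP_d16438_co, PointwiseLaw: the definitions of the statement (as in the problem file).
-/

set_option autoImplicit false

namespace Pool.Dia50b

/-- `S` is an edge of the `r`-uniform diameter hypergraph `H_r(P)`. -/
def IsEdge {d : ℕ} (r : ℕ) (P S : Finset (EuclideanSpace ℝ (Fin d))) : Prop :=
  S ⊆ P ∧ S.card = r ∧
    ∀ x ∈ S, ∀ y ∈ S, x ≠ y → dist x y = Metric.diam (P : Set (EuclideanSpace ℝ (Fin d)))

/-- `P` has a proper colouring with `m` colours: no edge of `H_r(P)` is monochromatic. -/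
def Colourable {d : ℕ} (r : ℕ) (P : Finset (EuclideanSpace ℝ (Fin d))) (m : ℕ) : Prop :=
  ∃ col : P → Fin m, ∀ S (hS : IsEdge r P S), ¬ ∀ x (hx : x ∈ S) y (hy : y ∈ S),
    col ⟨x, hS.1 hx⟩ = col ⟨y, hS.1 hy⟩

/-- The chromatic number `χ(H_r(P))`: the least number of colours of a proper colouring. -/
noncomputable def chi {d : ℕ} (r : ℕ) (P : Finset (EuclideanSpace ℝ (Fin d))) : ℕ :=
  sInf {m : ℕ | Colourable r P m}

end Pool.Dia50b
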