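import Mathlib
import Pool.Agent.Dia50.Ind
import Pool.Agent.Dia50.Geo
import Pool.Agent.Dia50b.Abs

/-!
Helper file (helper50) for MP_d16438_co, PointwiseLaw: unit vectors with non-negative inner
products, their tensor products and disjoint unions.
-/

set_option autoImplicit false

namespace Pool.Dia50b

open Finset

variable {T T' ι ι' : Type*} [Fintype ι] [Fintype ι']

/-- Inner product. -/
def ip (v w : ι → ℝ) : ℝ := ∑ i, v i * w i

/-- Squared distance. -/
def d2 (v w : ι → ℝ) : ℝ := ∑ i, (v i - w i) ^ 2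

theorem d2_eq (v w : ι → ℝ) : d2 v w = ip v v - 2 * ip v w + ip w w := by
  unfold d2 ip
  rw [Finset.mul_sum, ← Finset.sum_sub_distrib, ← Finset.sum_add_distrib]
  apply Finset.sum_congr rfl
  intro i _
  ring

/-- Orthogonality. -/
def Og (v : T → ι → ℝ) (x y : T) : Prop := ip (v x) (v y) = 0

theorem ip_comm (v w : ι → ℝ) : ip v w = ip w v := by
  unfold ip
  apply Finset.sum_congr rfl
  intro i _
  ring

theorem og_symm (v : T → ι → ℝ) (x y : T) (h : Og v x y) : Og v y x := by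
  unfold Og at h ⊢
  rw [ip_comm]; exact h

/-- Distinct unit vectors with non-negative inner products. -/
structure Model (U : Finset T) (v : T → ι → ℝ) : Prop where
  nn : ∀ x ∈ U, ∀ y ∈ U, 0 ≤ ip (v x) (v y)
  unit : ∀ x ∈ U, ip (v x) (v x) = 1
  lt : ∀ x ∈ U, ∀ y ∈ U, x ≠ y → ip (v x) (v y) < 1

theorem Model.irr {U : Finset T} {v : T → ι → ℝ} (h : Model U v) : ∀ x ∈ U, ¬ Og v x x := by
  intro x hx hO
  have := h.unit x hx
  unfold Og at hO
  rw [hO] at this
  exact zero_ne_one this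

theorem Model.le {U : Finset T} {v : T → ι → ℝ} (h : Model U v) :
    ∀ x ∈ U, ∀ y ∈ U, ip (v x) (v y) ≤ 1 := by
  intro x hx y hy
  by_cases hxy : x = y
  · rw [hxy]; exact (h.unit y hy).le
  · exact (h.lt x hx y hy hxy).le

theorem Model.subset {U V : Finset T} {v : T → ι → ℝ} (h : Model U v) (hV : V ⊆ U) :
    Model V v :=
  ⟨fun x hx y hy => h.nn x (hV hx) y (hV hy), fun x hx => h.unit x (hV hx),
    fun x hx y hy => h.lt x (hV hx) y (hV hy)⟩

/-- Tensor product. -/
def ten (v : T → ι → ℝ) (w : T' → ι' → ℝ) : T × T' → ι × ι' → ℝ :=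
  fun p i => v p.1 i.1 * w p.2 i.2

theorem ip_ten (v : T → ι → ℝ) (w : T' → ι' → ℝ) (p q : T × T') :
    ip (ten v w p) (ten v w q) = ip (v p.1) (v q.1) * ip (w p.2) (w q.2) := by
  unfold ip ten
  rw [Fintype.sum_prod_type, Finset.sum_mul]
  apply Finset.sum_congr rfl
  intro i _
  rw [Finset.mul_sum]
  apply Finset.sum_congr rfl
  intro j _
  ring

theorem Model.ten {U : Finset T} {v : T → ι → ℝ} {V : Finset T'} {w : T' → ι' → ℝ}
    (h : Model U v) (h' : Model V w) : Model (U ×ˢ V) (ten v w) := by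
  refine ⟨?_, ?_, ?_⟩
  · intro p hp q hq
    rw [Finset.mem_product] at hp hq
    rw [ip_ten]
    exact mul_nonneg (h.nn _ hp.1 _ hq.1) (h'.nn _ hp.2 _ hq.2)
  · intro p hp
    rw [Finset.mem_product] at hp
    rw [ip_ten, h.unit _ hp.1, h'.unit _ hp.2, one_mul]
  · intro p hp q hq hne
    rw [Finset.mem_product] at hp hq
    rw [ip_ten]
    have h1 := h.nn _ hp.1 _ hq.1
    have h2 := h'.nn _ hp.2 _ hq.2
    have h3 := h.le _ hp.1 _ hq.1
    have h4 := h'.le _ hp.2 _ hq.2
    by_cases h5 : p.1 = q.1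
    · have h6 : p.2 ≠ q.2 := fun h6 => hne (Prod.ext h5 h6)
      have h7 := h'.lt _ hp.2 _ hq.2 h6
      nlinarith
    · have h7 := h.lt _ hp.1 _ hq.1 h5
      nlinarith

theorem og_ten (v : T → ι → ℝ) (w : T' → ι' → ℝ) (p q : T × T') :
    Og (ten v w) p q ↔ Orp (Og v) (Og w) p q := by
  unfold Og Orp
  rw [ip_ten, mul_eq_zero]

/-- The orthonormal basis. -/
def bas (M : ℕ) : Fin M → Fin M → ℝ := fun i j => if i = j then 1 else 0

theorem ip_bas (M : ℕ) (i j : Fin M) : ip (bas M i) (bas M j) = if i = j then 1 else 0 := by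
  unfold ip bas
  simp

theorem model_bas (M : ℕ) : Model (univ : Finset (Fin M)) (bas M) := by
  refine ⟨?_, ?_, ?_⟩
  · intro x _ y _
    rw [ip_bas]; split_ifs <;> norm_num
  · intro x _
    rw [ip_bas, if_pos rfl]
  · intro x _ y _ hne
    rw [ip_bas, if_neg hne]; norm_num

theorem og_bas (M : ℕ) (i j : Fin M) (h : i ≠ j) : Og (bas M) i j := by
  unfold Og
  rw [ip_bas, if_neg h]

/-- The centre of mass (unnormalised). -/
noncomputable def cen (U : Finset T) (v : T → ι → ℝ) : ι → ℝ := fun i => ∑ z ∈ U, v z i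

theorem ip_cen (U : Finset T) (v : T → ι → ℝ) (w : ι → ℝ) :
    ip w (cen U v) = ∑ z ∈ U, ip w (v z) := by
  unfold ip cen
  rw [Finset.sum_comm]
  apply Finset.sum_congr rfl
  intro i _
  rw [Finset.mul_sum]

/-- The points of the disjoint union. -/
noncomputable def un (U : Finset T) (v : T → ι → ℝ) (w : T' → ι' → ℝ) :
    T ⊕ T' → ι ⊕ ι' → ℝ
  | Sum.inl x => Sum.elim (fun i => v x i - (1 / (U.card : ℝ) ^ 2) * cen U v i) (fun _ => 0)
  | Sum.inr y => Sum.elim (fun _ => 0) (w y)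

theorem d2_un_ll (U : Finset T) (v : T → ι → ℝ) (w : T' → ι' → ℝ) (x y : T) :
    d2 (un U v w (Sum.inl x)) (un U v w (Sum.inl y)) = d2 (v x) (v y) := by
  unfold d2 un
  rw [Fintype.sum_sum_type]
  simp

theorem d2_un_rr (U : Finset T) (v : T → ι → ℝ) (w : T' → ι' → ℝ) (x y : T') :
    d2 (un U v w (Sum.inr x)) (un U v w (Sum.inr y)) = d2 (w x) (w y) := by
  unfold d2 un
  rw [Fintype.sum_sum_type]
  simp

theorem d2_comm (v w : ι → ℝ) : d2 v w = d2 w v := by
  unfold d2
  apply Finset.sum_congr rfl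
  intro i _
  ring

theorem d2_un_lr {U : Finset T} {v : T → ι → ℝ} {V : Finset T'} {w : T' → ι' → ℝ}
    (h : Model U v) (h' : Model V w) (x : T) (hx : x ∈ U) (y : T') (hy : y ∈ V) :
    0 < d2 (un U v w (Sum.inl x)) (un U v w (Sum.inr y)) ∧
      d2 (un U v w (Sum.inl x)) (un U v w (Sum.inr y)) < 2 := by
  classical
  set n : ℝ := (U.card : ℝ) with hn
  have hn1 : 1 ≤ n := by
    rw [hn]
    exact_mod_cast Finset.card_pos.2 ⟨x, hx⟩
  set τ : ℝ := 1 / n ^ 2 with hτ
  have hτ0 : 0 < τ := by positivity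
  have hτn : τ * n ^ 2 = 1 := by
    rw [hτ]; field_simp
  have e1 : d2 (un U v w (Sum.inl x)) (un U v w (Sum.inr y)) =
      (1 - 2 * τ * ip (v x) (cen U v) + τ ^ 2 * ip (cen U v) (cen U v)) + 1 := by
    have h1 : d2 (un U v w (Sum.inl x)) (un U v w (Sum.inr y)) =
        ∑ i, (v x i - τ * cen U v i) ^ 2 + ∑ j, (w y j) ^ 2 := by
      unfold d2 un
      rw [Fintype.sum_sum_type]
      simp [hτ, hn]
    have h2 : ∑ i, (v x i - τ * cen U v i) ^ 2 =
        ip (v x) (v x) - 2 * τ * ip (v x) (cen U v) + τ ^ 2 * ip (cen U v) (cen U v) := by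
      unfold ip
      rw [Finset.mul_sum, Finset.mul_sum, ← Finset.sum_sub_distrib, ← Finset.sum_add_distrib]
      apply Finset.sum_congr rfl
      intro i _
      ring
    have h3 : ∑ j, (w y j) ^ 2 = ip (w y) (w y) := by
      unfold ip
      apply Finset.sum_congr rfl
      intro i _
      ring
    rw [h1, h2, h3, h.unit x hx, h'.unit y hy]
  have e2 : 1 ≤ ip (v x) (cen U v) := by
    rw [ip_cen, ← h.unit x hx]
    exact Finset.single_le_sum (f := fun z => ip (v x) (v z)) (fun z hz => h.nn x hx z hz) hx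
  have e3 : ip (cen U v) (cen U v) ≤ n ^ 2 := by
    rw [ip_cen]
    calc ∑ z ∈ U, ip (cen U v) (v z) ≤ ∑ z ∈ U, n := by
          apply Finset.sum_le_sum
          intro z hz
          rw [ip_comm, ip_cen]
          calc ∑ z' ∈ U, ip (v z) (v z') ≤ ∑ _z' ∈ U, (1 : ℝ) :=
                Finset.sum_le_sum (fun z' hz' => h.le z hz z' hz')
            _ = n := by rw [Finset.sum_const, nsmul_eq_mul, mul_one]
      _ = n ^ 2 := by rw [Finset.sum_const, nsmul_eq_mul, sq]
  have e4 : τ ^ 2 * ip (cen U v) (cen U v) ≤ τ := by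
    calc τ ^ 2 * ip (cen U v) (cen U v) ≤ τ ^ 2 * n ^ 2 :=
          mul_le_mul_of_nonneg_left e3 (by positivity)
      _ = τ * (τ * n ^ 2) := by ring
      _ = τ := by rw [hτn, mul_one]
  have e5 : τ ≤ τ * ip (v x) (cen U v) := by
    nlinarith
  constructor
  · have h4 : 0 < ∑ j, (w y j) ^ 2 := by
      have h3 : ∑ j, (w y j) ^ 2 = ip (w y) (w y) := by
        unfold ip
        apply Finset.sum_congr rfl
        intro i _
        ring
      rw [h3, h'.unit y hy]; norm_num
    have h5 : 0 ≤ ∑ i, (v x i - τ * cen U v i) ^ 2 :=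
      Finset.sum_nonneg (fun i _ => sq_nonneg _)
    have h1 : d2 (un U v w (Sum.inl x)) (un U v w (Sum.inr y)) =
        ∑ i, (v x i - τ * cen U v i) ^ 2 + ∑ j, (w y j) ^ 2 := by
      unfold d2 un
      rw [Fintype.sum_sum_type]
      simp [hτ, hn]
    rw [h1]
    linarith
  · rw [e1]
    nlinarith

theorem model_d2 {U : Finset T} {v : T → ι → ℝ} (h : Model U v) (x y : T) (hx : x ∈ U)
    (hy : y ∈ U) : d2 (v x) (v y) = 2 - 2 * ip (v x) (v y) := by
  rw [d2_eq, h.unit x hx, h.unit y hy]; ring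

/-- The disjoint union of two models as a set of points of diameter `√2`. -/
theorem union_points {U : Finset T} {v : T → ι → ℝ} {V : Finset T'} {w : T' → ι' → ℝ}
    (h : Model U v) (h' : Model V w) :
    (∀ p ∈ U.disjSum V, ∀ q ∈ U.disjSum V, d2 (un U v w p) (un U v w q) ≤ 2 ∧
      (d2 (un U v w p) (un U v w q) = 2 ↔ Sm (Og v) (Og w) p q) ∧
      (p ≠ q → 0 < d2 (un U v w p) (un U v w q))) := by
  intro p hp q hq
  rcases p with x | x <;> rcases q with y | y
  · rw [Finset.inl_mem_disjSum] at hp hq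
    rw [d2_un_ll, model_d2 h x y hp hq]
    refine ⟨by linarith [h.nn x hp y hq], ?_, ?_⟩
    · show _ ↔ ip (v x) (v y) = 0
      constructor <;> intro h1 <;> linarith
    · intro hne
      have := h.lt x hp y hq (fun h1 => hne (by rw [h1]))
      linarith
  · rw [Finset.inl_mem_disjSum] at hp
    rw [Finset.inr_mem_disjSum] at hq
    have h1 := d2_un_lr h h' x hp y hq
    refine ⟨h1.2.le, ?_, fun _ => h1.1⟩
    show _ ↔ False
    constructor
    · intro h2; exact absurd h2 h1.2.ne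
    · intro h2; exact absurd h2 id
  · rw [Finset.inr_mem_disjSum] at hp
    rw [Finset.inl_mem_disjSum] at hq
    rw [d2_comm]
    have h1 := d2_un_lr h h' y hq x hp
    refine ⟨h1.2.le, ?_, fun _ => h1.1⟩
    show _ ↔ False
    constructor
    · intro h2; exact absurd h2 h1.2.ne
    · intro h2; exact absurd h2 id
  · rw [Finset.inr_mem_disjSum] at hp hq
    rw [d2_un_rr, model_d2 h' x y hp hq]
    refine ⟨by linarith [h'.nn x hp y hq], ?_, ?_⟩
    · show _ ↔ ip (w x) (w y) = 0
      constructor <;> intro h1 <;> linarith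
    · intro hne
      have := h'.lt x hp y hq (fun h1 => hne (by rw [h1]))
      linarith

end Pool.Dia50b
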