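import Mathlib
import Pool.Agent.Dia50b.Mod

/-!
Helper file (helper50) for MP_d16438_co, PointwiseLaw: the models given by set systems.
-/

set_option autoImplicit false

namespace Pool.Dia50b

open Finset Pool.Dia50

/-- The size of the constants. -/
theorem const_bound (r a : ℕ) (hr : 2 ≤ r) (ha : 2 ^ a ≤ 2 * (r * (r + 1))) :
    (2 * r + 1) * 2 ^ a * 2 ^ ((r - 1) * (7 + 2 * a)) * r ^ 8 ≤ r ^ (15 * r) := by
  have h1 : 2 * r + 1 ≤ r ^ 3 := by
    have : r ^ 3 = r * (r * r) := by ring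
    rw [this]
    nlinarith [Nat.mul_le_mul hr hr]
  have h2 : 2 ^ a ≤ r ^ 4 := by
    have e : r ^ 4 = (r * r) * (r * r) := by ring
    rw [e]
    nlinarith [Nat.mul_le_mul hr hr, Nat.mul_le_mul (Nat.mul_le_mul hr hr) (le_refl (r * r))]
  have h3 : 2 ^ (7 + 2 * a) ≤ r ^ 15 := by
    have e1 : 2 ^ (7 + 2 * a) = 2 ^ 7 * (2 ^ a) ^ 2 := by
      rw [pow_add, mul_comm 2 a, pow_mul]
    rw [e1]
    calc 2 ^ 7 * (2 ^ a) ^ 2 ≤ r ^ 7 * (r ^ 4) ^ 2 :=
          Nat.mul_le_mul (Nat.pow_le_pow_left hr 7) (Nat.pow_le_pow_left h2 2)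
      _ = r ^ 15 := by ring
  have h4 : 2 ^ ((r - 1) * (7 + 2 * a)) ≤ r ^ (15 * (r - 1)) := by
    rw [mul_comm (r - 1), pow_mul, pow_mul]
    exact Nat.pow_le_pow_left h3 _
  calc (2 * r + 1) * 2 ^ a * 2 ^ ((r - 1) * (7 + 2 * a)) * r ^ 8
      ≤ r ^ 3 * r ^ 4 * r ^ (15 * (r - 1)) * r ^ 8 :=
        Nat.mul_le_mul_right _ (Nat.mul_le_mul (Nat.mul_le_mul h1 h2) h4)
    _ = r ^ (15 * r) := by
        rw [← pow_add, ← pow_add, ← pow_add]
        congr 1
        omega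

/-- The normalised tensor squares. -/
noncomputable def sqv {n : ℕ} (c δ : ℝ) (A : Finset (Fin n)) : Fin n × Fin n → ℝ :=
  fun i => δ * (xv c A i.1 * xv c A i.2)

theorem ip_sqv {n : ℕ} (c : ℝ) (k s : ℕ) (hc : c ^ 2 * n - 2 * c * k + s = 0)
    (A B : Finset (Fin n)) (hA : A.card = k) (hB : B.card = k) :
    ip (sqv c (1 / ((k : ℝ) - s)) A) (sqv c (1 / ((k : ℝ) - s)) B) =
      ((((A ∩ B).card : ℝ) - s) / ((k : ℝ) - s)) ^ 2 := by
  classical
  unfold ip sqv
  have h1 : ∀ y : Fin n × Fin n,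
      1 / ((k : ℝ) - s) * (xv c A y.1 * xv c A y.2) * (1 / ((k : ℝ) - s) * (xv c B y.1 * xv c B y.2))
      = (1 / ((k : ℝ) - s)) ^ 2 * ((xv c A y.1 * xv c B y.1) * (xv c A y.2 * xv c B y.2)) := by
    intro y; ring
  rw [Finset.sum_congr rfl (fun y _ => h1 y), ← Finset.mul_sum]
  have h2 : ∀ f g : Fin n → ℝ, ∑ y : Fin n × Fin n, f y.1 * g y.2 = (∑ i, f i) * ∑ i, g i := by
    intro f g
    rw [Fintype.sum_prod_type, Finset.sum_mul]
    apply Finset.sum_congr rfl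
    intro i _
    rw [Finset.mul_sum]
  rw [h2 (fun i => xv c A i * xv c B i) (fun i => xv c A i * xv c B i), xv_inner, hA, hB]
  have e2 : ((A ∩ B).card : ℝ) - c * k - c * k + c ^ 2 * n = ((A ∩ B).card : ℝ) - s := by linarith
  rw [e2]
  ring

theorem fw_model (j t : ℕ) (hj : 2 ≤ j) :
    ∃ (n : ℕ) (U : Finset (Finset (Fin n))) (v : Finset (Fin n) → Fin n × Fin n → ℝ),
      n * j ^ 8 ≤ j ^ (15 * j) * 2 ^ t ∧ Model U v ∧ (∀ S ⊆ U, ¬ Clq (Og v) (j + 1) S) ∧
      ¬ ColOn (Og v) U j (2 ^ (2 ^ t)) := by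
  classical
  have hj1 : 1 ≤ j := by omega
  set a := Nat.log 2 (j * (j + 1)) + 1 with ha
  have ha1 : j * (j + 1) < 2 ^ a := Nat.lt_pow_succ_log_self (by norm_num) _
  have ha2 : 2 ^ a ≤ 2 * (j * (j + 1)) := by
    rw [ha, pow_succ, mul_comm]
    exact Nat.mul_le_mul_left _ (Nat.pow_log_le_self 2 (by positivity))
  have hD := Pool.Dia50.dens_all a (by omega) j hj1 (by nlinarith) t
  have hcb := const_bound j a hj ha2
  set u := (j - 1) * (7 + 2 * a) with hu
  set h := 2 ^ (u + t) with hh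
  have hh1 : 1 ≤ h := Nat.one_le_two_pow
  set β := 2 ^ a with hβ
  have hβr : 2 * j + 1 ≤ 2 * β := by nlinarith
  have hβ4 : 4 ≤ β := by nlinarith
  set n := (2 * j + 1) * β * h with hn
  set k := 2 * β * h with hk
  set s := 2 * h with hs
  have hn0 : 0 < n := by positivity
  have hsn : s * n ≤ k ^ 2 := by
    have e1 : s * n = (2 * j + 1) * (2 * β * h * h) := by rw [hs, hn]; ring
    have e2 : k ^ 2 = (2 * β) * (2 * β * h * h) := by rw [hk]; ring
    rw [e1, e2]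
    exact Nat.mul_le_mul_right _ hβr
  have hsk : 2 * s + 1 ≤ k := by
    rw [hs, hk]; nlinarith
  obtain ⟨c, hc⟩ := exists_shift n k s hn0 hsn
  set U := powersetCard k (univ : Finset (Fin n)) with hU
  have hUc : ∀ A ∈ U, A.card = k := fun A hA => (Finset.mem_powersetCard.1 hA).2
  have hUcard : U.card = n.choose k := by
    rw [hU, Finset.card_powersetCard, Finset.card_univ, Fintype.card_fin]
  have hskR : 2 * (s : ℝ) + 1 ≤ k := by exact_mod_cast hsk
  have hs0 : (0 : ℝ) ≤ s := Nat.cast_nonneg s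
  have hks : (0 : ℝ) < (k : ℝ) - s := by linarith
  have hip : ∀ A ∈ U, ∀ B ∈ U, ip (sqv c (1 / ((k : ℝ) - s)) A) (sqv c (1 / ((k : ℝ) - s)) B) =
      ((((A ∩ B).card : ℝ) - s) / ((k : ℝ) - s)) ^ 2 :=
    fun A hA B hB => ip_sqv c k s hc A B (hUc A hA) (hUc B hB)
  have hiff : ∀ A ∈ U, ∀ B ∈ U, Og (sqv c (1 / ((k : ℝ) - s))) A B ↔ (A ∩ B).card = s := by
    intro A hA B hB
    unfold Og
    rw [hip A hA B hB]
    constructor
    · intro h1
      have h2 := pow_eq_zero_iff (two_ne_zero) |>.1 h1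
      rw [div_eq_zero_iff] at h2
      rcases h2 with h2 | h2
      · have h3 : ((A ∩ B).card : ℝ) = s := by linarith
        exact_mod_cast h3
      · exact absurd h2 hks.ne'
    · intro h1
      rw [h1]; simp
  refine ⟨n, U, sqv c (1 / ((k : ℝ) - s)), ?_, ?_, ?_, ?_⟩
  · calc n * j ^ 8 = ((2 * j + 1) * β * 2 ^ u * j ^ 8) * 2 ^ t := by
          rw [hn, hh, pow_add]; ring
      _ ≤ j ^ (15 * j) * 2 ^ t := Nat.mul_le_mul_right _ hcb
  · refine ⟨?_, ?_, ?_⟩
    · intro A hA B hB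
      rw [hip A hA B hB]; positivity
    · intro A hA
      rw [hip A hA A hA, Finset.inter_self, hUc A hA, div_self hks.ne', one_pow]
    · intro A hA B hB hne
      rw [hip A hA B hB]
      have h1 : (A ∩ B).card < k := by
        rw [← hUc A hA]
        apply Finset.card_lt_card
        refine ⟨Finset.inter_subset_left, fun h2 => hne ?_⟩
        have h3 : A ⊆ B := fun x hx => (Finset.mem_inter.1 (h2 hx)).2
        exact Finset.eq_of_subset_of_card_le h3 (by rw [hUc A hA, hUc B hB])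
      have h1R : ((A ∩ B).card : ℝ) < k := by exact_mod_cast h1
      have h0R : (0 : ℝ) ≤ ((A ∩ B).card : ℝ) := Nat.cast_nonneg _
      rw [sq_lt_one_iff_abs_lt_one, abs_lt]
      constructor
      · rw [lt_div_iff₀ hks]; linarith
      · rw [div_lt_one hks]; linarith
  · intro S hS hC
    have h1 := many_sets n k s j S (fun A hA => hUc A (hS hA))
      (fun A hA B hB hne => (hiff A (hS hA) B (hS hB)).1 (hC.2 A hA B hB hne)) hC.1
    rw [hk, hn, hs] at h1
    have h2 : 2 * (β * h) ≤ 2 * (j * (j + 1) * h) := by nlinarith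
    have h3 : β * h ≤ j * (j + 1) * h := by omega
    have := Nat.le_of_mul_le_mul_right h3 hh1
    omega
  · rintro ⟨col, h1, h2⟩
    -- a class of maximal size
    have hex : ∃ c' ∈ Finset.range (2 ^ (2 ^ t)),
        U.card ≤ 2 ^ (2 ^ t) * (U.filter (fun A => col A = c')).card := by
      by_contra hno
      push Not at hno
      have h3 : ∑ c' ∈ Finset.range (2 ^ (2 ^ t)), 2 ^ (2 ^ t) * (U.filter (fun A => col A = c')).card
          < ∑ _c' ∈ Finset.range (2 ^ (2 ^ t)), U.card :=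
        Finset.sum_lt_sum_of_nonempty ⟨0, by simp⟩ hno
      rw [← Finset.mul_sum, ← Finset.card_eq_sum_card_fiberwise
        (fun x hx => Finset.mem_coe.2 (Finset.mem_range.2 (h1 x (Finset.mem_coe.1 hx)))),
        Finset.sum_const, Finset.card_range, smul_eq_mul] at h3
      exact lt_irrefl _ h3
    obtain ⟨c', _, hc'⟩ := hex
    obtain ⟨C, hCF, hCr, hC⟩ := hD (U.filter (fun A => col A = c'))
      (fun A hA => hUc A (Finset.mem_filter.1 hA).1) (by rw [← hUcard]; exact hc')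
    have hCU : ∀ A ∈ C, A ∈ U := fun A hA => (Finset.mem_filter.1 (hCF hA)).1
    obtain ⟨A, hA, B, hB, hne⟩ := h2 C hCU ⟨hCr, fun A hA B hB hne =>
      (hiff A (hCU A hA) B (hCU B hB)).2 (hC A hA B hB hne)⟩
    apply hne
    rw [(Finset.mem_filter.1 (hCF hA)).2, (Finset.mem_filter.1 (hCF hB)).2]

/-- The blocks: no `(j + 1)`-clique, but many colours are needed for `j`-cliques. -/
theorem block (j t : ℕ) (hj : 1 ≤ j) :
    ∃ (T ι : Type) (_ : Fintype ι) (U : Finset T) (v : T → ι → ℝ),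
      Fintype.card ι ≤ j ^ (30 * j) * (2 ^ t) ^ 2 ∧
      Model U v ∧ (∀ S ⊆ U, ¬ Clq (Og v) (j + 1) S) ∧ ¬ ColOn (Og v) U j (2 ^ (2 ^ t)) := by
  classical
  by_cases hj2 : 2 ≤ j
  · obtain ⟨n, U, v, hn, h1, h2, h3⟩ := fw_model j t hj2
    refine ⟨_, _, inferInstance, U, v, ?_, h1, h2, h3⟩
    rw [Fintype.card_prod, Fintype.card_fin]
    have hn' : n ≤ j ^ (15 * j) * 2 ^ t :=
      le_trans (Nat.le_mul_of_pos_right _ (by positivity)) hn
    calc n * n ≤ (j ^ (15 * j) * 2 ^ t) * (j ^ (15 * j) * 2 ^ t) := Nat.mul_le_mul hn' hn'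
      _ = j ^ (15 * j) * j ^ (15 * j) * (2 ^ t) ^ 2 := by ring
      _ = j ^ (30 * j) * (2 ^ t) ^ 2 := by
          rw [← pow_add]; congr 2; omega
  · have hj1 : j = 1 := by omega
    subst hj1
    refine ⟨Fin 1, Fin 1, inferInstance, univ, bas 1, ?_, model_bas 1, ?_, ?_⟩
    · rw [Fintype.card_fin, one_pow, one_mul]
      exact Nat.one_le_pow _ _ (by positivity)
    · intro S hS hC
      have h1 := Finset.card_le_card hS
      rw [hC.1] at h1
      simp at h1
    · rintro ⟨col, _, h2⟩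
      obtain ⟨x, hx, y, hy, hne⟩ := h2 univ (Finset.Subset.refl _) ⟨by simp, by
        intro x _ y _ hne
        exact absurd (Subsingleton.elim x y) hne⟩
      exact hne (by rw [Subsingleton.elim x y])

/-- The trimmed block: exactly `a` colours are needed. -/
theorem trimmed (r t a : ℕ) (hr : 2 ≤ r) (ha : 1 ≤ a) (hat : a ≤ 2 ^ (2 ^ t)) :
    ∃ (T ι : Type) (_ : Fintype ι) (U : Finset T) (v : T → ι → ℝ),
      Fintype.card ι ≤ r ^ (30 * r) * (2 ^ t) ^ 2 ∧
      Model U v ∧ (∀ S ⊆ U, ¬ Clq (Og v) (r + 1) S) ∧ ∀ N, ColOn (Og v) U r N ↔ a ≤ N := by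
  obtain ⟨T, ι, inst, U, v, h0, h1, h2, h3⟩ := block r t (by omega)
  obtain ⟨V, hV, hVa⟩ := trim hr a ha U (fun h => h3 (h.mono (by omega)))
  exact ⟨T, ι, inst, V, v, h0, h1.subset hV, fun S hS => h2 S (hS.trans hV), hVa⟩

end Pool.Dia50b
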