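import Mathlib
import Pool.Agent.Dia50b.FWm
import Pool.Agent.Dia50b.Defs

/-!
Helper file (helper50) for MP_d16438_co, PointwiseLaw: point sets of `ℝ^d` and the three parts of
the theorem.
-/

set_option autoImplicit false

namespace Pool.Dia50b

open Finset

/-- Every finite set has a proper colouring (`r ≥ 2`), so that `chi` is attained. -/
theorem colourable_card {d : ℕ} (r : ℕ) (hr : 2 ≤ r) (P : Finset (EuclideanSpace ℝ (Fin d))) :
    Colourable r P P.card := by
  classical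
  refine ⟨P.equivFin, ?_⟩
  intro S hS h
  have h2 : 1 < S.card := by rw [hS.2.1]; omega
  obtain ⟨x, hx, y, hy, hne⟩ := Finset.one_lt_card.1 h2
  have := P.equivFin.injective (h x hx y hy)
  exact hne (congrArg Subtype.val this)

theorem chi_colourable {d : ℕ} (r : ℕ) (hr : 2 ≤ r) (P : Finset (EuclideanSpace ℝ (Fin d))) :
    Colourable r P (chi r P) := by
  have h : sInf {m : ℕ | Colourable r P m} ∈ {m : ℕ | Colourable r P m} :=
    Nat.sInf_mem ⟨P.card, colourable_card r hr P⟩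
  exact h

theorem chi_eq {d : ℕ} {r a : ℕ} {P : Finset (EuclideanSpace ℝ (Fin d))}
    (h : ∀ m, Colourable r P m ↔ a ≤ m) : chi r P = a := by
  unfold chi
  have : {m : ℕ | Colourable r P m} = {m : ℕ | a ≤ m} := by
    ext m; exact h m
  rw [this]
  apply le_antisymm
  · exact Nat.sInf_le (le_refl a)
  · have h2 : sInf {m : ℕ | a ≤ m} ∈ {m : ℕ | a ≤ m} := Nat.sInf_mem ⟨a, le_refl a⟩
    exact h2

/-- Colourings of indexed points. -/
theorem transfer {T : Type} {d : ℕ} (P : Finset (EuclideanSpace ℝ (Fin d))) (U : Finset T)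
    (f : T → EuclideanSpace ℝ (Fin d)) (hf : ∀ x, x ∈ P ↔ ∃ a ∈ U, f a = x)
    (hinj : ∀ a ∈ U, ∀ b ∈ U, f a = f b → a = b) (G : T → T → Prop)
    (hG : ∀ a ∈ U, ∀ b ∈ U, a ≠ b →
      (dist (f a) (f b) = Metric.diam (P : Set (EuclideanSpace ℝ (Fin d))) ↔ G a b))
    (t m : ℕ) : Colourable t P m ↔ ColOn G U t m := by
  classical
  constructor
  · rintro ⟨col, h⟩
    refine ⟨fun a => if ha : f a ∈ P then (col ⟨f a, ha⟩ : ℕ) else 0, ?_, ?_⟩
    · intro a ha
      have haP : f a ∈ P := (hf _).2 ⟨a, ha, rfl⟩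
      show (if ha : f a ∈ P then (col ⟨f a, ha⟩ : ℕ) else 0) < m
      rw [dif_pos haP]
      exact (col ⟨f a, haP⟩).2
    · intro S hS hC
      by_contra hcon
      push Not at hcon
      have hSP : ∀ a ∈ S, f a ∈ P := fun a ha => (hf _).2 ⟨a, hS ha, rfl⟩
      have hedge : IsEdge t P (S.image f) := by
        refine ⟨?_, ?_, ?_⟩
        · intro x hx
          obtain ⟨a, ha, rfl⟩ := Finset.mem_image.1 hx
          exact hSP a ha
        · rw [Finset.card_image_of_injOn (fun a ha b hb hab => hinj a (hS ha) b (hS hb) hab), hC.1]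
        · intro x hx y hy hne
          obtain ⟨a, ha, rfl⟩ := Finset.mem_image.1 hx
          obtain ⟨b, hb, rfl⟩ := Finset.mem_image.1 hy
          have hab : a ≠ b := fun h => hne (by rw [h])
          exact (hG a (hS ha) b (hS hb) hab).2 (hC.2 a ha b hb hab)
      apply h _ hedge
      intro x hx y hy
      obtain ⟨a, ha, rfl⟩ := Finset.mem_image.1 hx
      obtain ⟨b, hb, rfl⟩ := Finset.mem_image.1 hy
      have h3 := hcon a ha b hb
      rw [dif_pos (hSP a ha), dif_pos (hSP b hb)] at h3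
      exact Fin.ext h3
  · rintro ⟨col, h1, h2⟩
    have hch : ∀ x : P, ∃ a ∈ U, f a = x := fun x => (hf _).1 x.2
    choose g hgU hg using hch
    refine ⟨fun x => ⟨col (g x), h1 _ (hgU x)⟩, ?_⟩
    intro S hS hmono
    have hgi : Set.InjOn (fun x : S => g ⟨x.1, hS.1 x.2⟩) (Set.univ) := by
      intro x _ y _ hxy
      have e1 := hg ⟨x.1, hS.1 x.2⟩
      have e2 := hg ⟨y.1, hS.1 y.2⟩
      simp only at hxy
      rw [hxy, e2] at e1
      exact Subtype.ext e1.symm
    set S' := (Finset.univ : Finset S).image (fun x : S => g ⟨x.1, hS.1 x.2⟩) with hS'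
    obtain ⟨a, ha, b, hb, hne⟩ := h2 S' (by
      intro a ha
      obtain ⟨x, _, rfl⟩ := Finset.mem_image.1 ha
      exact hgU _) ⟨by
        rw [hS', Finset.card_image_of_injOn (by simpa using hgi), Finset.card_univ,
          Fintype.card_coe, hS.2.1], by
        intro a ha b hb hab
        obtain ⟨x, _, rfl⟩ := Finset.mem_image.1 ha
        obtain ⟨y, _, rfl⟩ := Finset.mem_image.1 hb
        apply (hG _ (hgU _) _ (hgU _) hab).1
        rw [hg, hg]
        apply hS.2.2 _ x.2 _ y.2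
        intro hxy
        apply hab
        have : x = y := Subtype.ext hxy
        rw [this]⟩
    obtain ⟨x, _, rfl⟩ := Finset.mem_image.1 ha
    obtain ⟨y, _, rfl⟩ := Finset.mem_image.1 hb
    apply hne
    have := hmono x.1 x.2 y.1 y.2
    exact congrArg Fin.val this

theorem sum_extend {ι : Type} [Fintype ι] {d : ℕ} (e : ι ↪ Fin d) (f g : ι → ℝ) :
    ∑ i, (Function.extend e f 0 i - Function.extend e g 0 i) ^ 2 = ∑ y, (f y - g y) ^ 2 := by
  classical
  have h1 : ∑ y, (f y - g y) ^ 2 =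
      ∑ i ∈ (univ : Finset ι).map e,
        (Function.extend e f 0 i - Function.extend e g 0 i) ^ 2 := by
    rw [Finset.sum_map]
    apply Finset.sum_congr rfl
    intro y _
    rw [e.injective.extend_apply, e.injective.extend_apply]
  rw [h1]
  symm
  apply Finset.sum_subset (Finset.subset_univ _)
  intro i _ hi
  have hi' : ¬ ∃ a, e a = i := by
    rintro ⟨a, ha⟩
    exact hi (Finset.mem_map.2 ⟨a, Finset.mem_univ _, ha⟩)
  rw [Function.extend_apply' _ _ _ hi', Function.extend_apply' _ _ _ hi']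
  simp

/-- Points with squared distances at most `2` as a point set of `ℝ^d`. -/
theorem realise {T ι : Type} [Fintype ι] (d : ℕ) (hd : Fintype.card ι ≤ d) (p : T → ι → ℝ)
    (U : Finset T) (G : T → T → Prop)
    (hp : ∀ a ∈ U, ∀ b ∈ U, d2 (p a) (p b) ≤ 2 ∧ (d2 (p a) (p b) = 2 ↔ G a b) ∧
      (a ≠ b → 0 < d2 (p a) (p b)))
    (hedge : ∃ a ∈ U, ∃ b ∈ U, G a b) :
    ∃ P : Finset (EuclideanSpace ℝ (Fin d)), 2 ≤ P.card ∧
      ∀ t m, Colourable t P m ↔ ColOn G U t m := by
  classical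
  obtain ⟨e⟩ : Nonempty (ι ↪ Fin d) := Function.Embedding.nonempty_of_card_le (by simpa using hd)
  set f : T → EuclideanSpace ℝ (Fin d) := fun a => WithLp.toLp 2 (Function.extend e (p a) 0) with hf
  have hdist : ∀ a b, dist (f a) (f b) ^ 2 = d2 (p a) (p b) := by
    intro a b
    have h0 : dist (f a) (f b) ^ 2 = ∑ i, ((f a).ofLp i - (f b).ofLp i) ^ 2 := by
      rw [EuclideanSpace.dist_eq, Real.sq_sqrt (Finset.sum_nonneg (fun i _ => sq_nonneg _))]
      apply Finset.sum_congr rfl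
      intro i _
      rw [Real.dist_eq, sq_abs]
    rw [h0]
    exact sum_extend e (p a) (p b)
  set P := U.image f with hP
  have hinj : ∀ a ∈ U, ∀ b ∈ U, f a = f b → a = b := by
    intro a ha b hb hab
    by_contra hne
    have h1 := (hp a ha b hb).2.2 hne
    rw [← hdist, hab, dist_self] at h1
    norm_num at h1
  have hs2 : (0 : ℝ) ≤ Real.sqrt 2 := Real.sqrt_nonneg _
  have hsq : Real.sqrt 2 ^ 2 = 2 := Real.sq_sqrt (by norm_num)
  have hle : ∀ a ∈ U, ∀ b ∈ U, dist (f a) (f b) ≤ Real.sqrt 2 := by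
    intro a ha b hb
    apply Real.le_sqrt_of_sq_le
    rw [hdist]
    exact (hp a ha b hb).1
  have hiff : ∀ a ∈ U, ∀ b ∈ U, (dist (f a) (f b) = Real.sqrt 2 ↔ G a b) := by
    intro a ha b hb
    rw [← (hp a ha b hb).2.1, ← hdist]
    constructor
    · intro h; rw [h, hsq]
    · intro h
      exact (sq_eq_sq₀ dist_nonneg hs2).1 (by rw [h, hsq])
  obtain ⟨a0, ha0, b0, hb0, hG0⟩ := hedge
  have hd0 : dist (f a0) (f b0) = Real.sqrt 2 := (hiff a0 ha0 b0 hb0).2 hG0
  have hdiam : Metric.diam (P : Set (EuclideanSpace ℝ (Fin d))) = Real.sqrt 2 := by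
    apply le_antisymm
    · apply Metric.diam_le_of_forall_dist_le hs2
      intro x hx y hy
      rw [Finset.mem_coe, hP, Finset.mem_image] at hx hy
      obtain ⟨a, ha, rfl⟩ := hx
      obtain ⟨b, hb, rfl⟩ := hy
      exact hle a ha b hb
    · rw [← hd0]
      apply Metric.dist_le_diam_of_mem P.finite_toSet.isBounded
      · exact Finset.mem_coe.2 (Finset.mem_image_of_mem _ ha0)
      · exact Finset.mem_coe.2 (Finset.mem_image_of_mem _ hb0)
  refine ⟨P, ?_, ?_⟩
  · have hne : f a0 ≠ f b0 := by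
      intro h
      rw [h, dist_self] at hd0
      have : (0 : ℝ) < Real.sqrt 2 := Real.sqrt_pos.2 (by norm_num)
      linarith
    have : 1 < P.card := Finset.one_lt_card.2 ⟨f a0, Finset.mem_image_of_mem _ ha0, f b0,
      Finset.mem_image_of_mem _ hb0, hne⟩
    omega
  · intro t m
    apply transfer P U f _ hinj G _ t m
    · intro x
      rw [hP, Finset.mem_image]
    · intro a ha b hb _
      rw [hdiam]
      exact hiff a ha b hb

/-- The disjoint union with a set needing exactly `a` colours. -/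
theorem assemble {T T' ι ι' : Type} [Fintype ι] [Fintype ι'] {r a d : ℕ} (hr : 2 ≤ r)
    (ha : 2 ≤ a) {U : Finset T} {v : T → ι → ℝ} {V : Finset T'} {w : T' → ι' → ℝ}
    (hU : Model U v) (hV : Model V w) (hVc : ∀ S ⊆ V, ¬ Clq (Og w) (r + 1) S)
    (hVa : ∀ N, ColOn (Og w) V r N ↔ a ≤ N) (hUa : ColOn (Og v) U r a)
    (hd : Fintype.card ι + Fintype.card ι' ≤ d) :
    ∃ P : Finset (EuclideanSpace ℝ (Fin d)), 2 ≤ P.card ∧ chi r P = a ∧
      ∀ t b, r < t → 1 ≤ b → (∀ N, ColOn (Og v) U t N ↔ b ≤ N) → chi t P = b := by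
  classical
  have hedge : ∃ p ∈ U.disjSum V, ∃ q ∈ U.disjSum V, Sm (Og v) (Og w) p q := by
    by_contra hcon
    push Not at hcon
    have h1 : ColOn (Og w) V r 1 := by
      apply colOn_one _ (le_refl 1)
      intro S hS hC
      have h2 : 1 < S.card := by rw [hC.1]; omega
      obtain ⟨x, hx, y, hy, hne⟩ := Finset.one_lt_card.1 h2
      exact hcon (Sum.inr x) (Finset.inr_mem_disjSum.2 (hS hx)) (Sum.inr y)
        (Finset.inr_mem_disjSum.2 (hS hy)) (hC.2 x hx y hy hne)
    have := (hVa 1).1 h1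
    omega
  obtain ⟨P, hP2, hP⟩ := realise d (by rw [Fintype.card_sum]; exact hd) (un U v w)
    (U.disjSum V) (Sm (Og v) (Og w)) (union_points hU hV) hedge
  refine ⟨P, hP2, ?_, ?_⟩
  · apply chi_eq
    intro m
    rw [hP, sm_iff hr]
    constructor
    · rintro ⟨_, h⟩; exact (hVa m).1 h
    · intro h; exact ⟨hUa.mono h, (hVa m).2 h⟩
  · intro t b hrt hb hUt
    apply chi_eq
    intro m
    rw [hP, sm_iff (by omega)]
    constructor
    · rintro ⟨h, _⟩; exact (hUt m).1 h
    · intro h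
      refine ⟨(hUt m).2 h, colOn_one ?_ (by omega)⟩
      intro S hS hC
      obtain ⟨S', hS', hC'⟩ := Clq.exists_subset (t := r + 1) hC.2 (by rw [hC.1]; omega)
      exact hVc S' (hS'.trans hS) hC'

/-- The product of two models. -/
theorem product_upper {T T' ι ι' : Type} [Fintype ι] [Fintype ι'] {r N : ℕ}
    {U : Finset T} {v : T → ι → ℝ} {V : Finset T'} {w : T' → ι' → ℝ}
    (hU : Model U v) (hV : Model V w) (hVc : ∀ S ⊆ V, ¬ Clq (Og w) r S)
    (h : ColOn (Og v) U 2 N) : ColOn (Og (ten v w)) (U ×ˢ V) r N := by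
  have h1 : Og (ten v w) = Orp (Og v) (Og w) := by
    funext p q; exact propext (og_ten v w p q)
  rw [h1]
  exact orp_upper hU.irr (og_symm v) hV.irr hVc h

theorem product_lower {T T' ι ι' : Type} [Fintype ι] [Fintype ι'] {j m t N : ℕ}
    {U : Finset T} {v : T → ι → ℝ} {V : Finset T'} {w : T' → ι' → ℝ}
    (hj : 1 ≤ j) (hV : ¬ ColOn (Og w) V j N) (ht : t ≤ (m + 1) * j)
    (h : ColOn (Og (ten v w)) (U ×ˢ V) t N) : ColOn (Og v) U (m + 1) N := by
  have h1 : Og (ten v w) = Orp (Og v) (Og w) := by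
    funext p q; exact propext (og_ten v w p q)
  rw [h1] at h
  exact orp_lower hj hV ht h

theorem part_one (d r s : ℕ) (hr : 2 ≤ r) (hrs : r < s)
    (P : Finset (EuclideanSpace ℝ (Fin d))) :
    chi s P ≤ chi r P ⌈/⌉ ((s - 1) / (r - 1)) := by
  classical
  have hm : 1 ≤ (s - 1) / (r - 1) := (Nat.one_le_div_iff (by omega)).2 (by omega)
  have htr : ∀ t m, Colourable t P m ↔ ColOn (fun x y : EuclideanSpace ℝ (Fin d) =>
      dist x y = Metric.diam (P : Set (EuclideanSpace ℝ (Fin d)))) P t m := by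
    intro t m
    apply transfer P P id (fun x => ?_) (fun a _ b _ h => h) _ (fun a _ b _ _ => Iff.rfl) t m
    constructor
    · intro h; exact ⟨x, h, rfl⟩
    · rintro ⟨a, ha, rfl⟩; exact ha
  have h1 := (htr r (chi r P)).1 (chi_colourable r hr P)
  have h2 := h1.merge (t := s) ((s - 1) / (r - 1)) hm (by
    have := Nat.div_mul_le_self (s - 1) (r - 1)
    omega) (by omega)
  rw [Nat.ceilDiv_eq_add_pred_div]
  exact Nat.sInf_le ((htr s _).2 h2)

/-- The number of doublings. -/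
theorem exists_t (a : ℕ) : ∃ t : ℕ, a ≤ 2 ^ (2 ^ t) ∧
    ((2 ^ t : ℕ) : ℝ) ≤ 3 * (1 + Real.log a) := by
  classical
  have hex : ∃ t : ℕ, a ≤ 2 ^ (2 ^ t) :=
    ⟨a, (Nat.lt_two_pow_self.le).trans (Nat.lt_two_pow_self.le)⟩
  refine ⟨Nat.find hex, Nat.find_spec hex, ?_⟩
  have hlog : 0 ≤ Real.log a := Real.log_natCast_nonneg a
  rcases Nat.eq_zero_or_pos (Nat.find hex) with h0 | h0
  · rw [h0]; norm_num; linarith
  · have h1 := Nat.find_min hex (m := Nat.find hex - 1) (by omega)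
    push Not at h1
    set u := Nat.find hex - 1 with hu
    have h2 : Nat.find hex = u + 1 := by omega
    rw [h2]
    have h3 : (2 : ℝ) ^ (2 ^ u) < a := by exact_mod_cast h1
    have h4 : Real.log ((2 : ℝ) ^ (2 ^ u)) ≤ Real.log a :=
      Real.log_le_log (by positivity) h3.le
    rw [Real.log_pow] at h4
    have h5 := Real.log_two_gt_d9
    push_cast at h4 ⊢
    rw [pow_succ]
    have h6 : (0 : ℝ) < 2 ^ u := by positivity
    nlinarith

theorem part_two (r s a b d : ℕ) (hr : 2 ≤ r) (hrs : r < s) (ha : 2 ≤ a) (hb : 1 ≤ b)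
    (hab : b ≤ a ⌈/⌉ ((s - 1) / (r - 1)))
    (hd : (r : ℝ) ^ (35 * r) * ((((s - 1) / (r - 1)) * b : ℕ) : ℝ) * (1 + Real.log a) ^ 2 ≤ d) :
    ∃ P : Finset (EuclideanSpace ℝ (Fin d)), 2 ≤ P.card ∧ chi r P = a ∧ chi s P = b := by
  classical
  set m := (s - 1) / (r - 1) with hm
  have hm1 : 1 ≤ m := (Nat.one_le_div_iff (by omega)).2 (by omega)
  rw [Nat.ceilDiv_eq_add_pred_div, Nat.le_div_iff_mul_le (by omega)] at hab
  obtain ⟨t, hat, htlog⟩ := exists_t a
  set M := m * (b - 1) + 1 with hM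
  obtain ⟨b', rfl⟩ : ∃ b', b = b' + 1 := ⟨b - 1, by omega⟩
  have hMa : M ≤ a := by
    rw [hM]
    have : (b' + 1) * m = m * b' + m := by ring
    simp only [Nat.add_sub_cancel]
    omega
  have hMmb : M ≤ m * (b' + 1) := by
    rw [hM]
    simp only [Nat.add_sub_cancel]
    nlinarith
  have hbM : b' + 1 ≤ M := by
    rw [hM]
    simp only [Nat.add_sub_cancel]
    nlinarith
  obtain ⟨T', ι', inst', V, w, hV0, hV1, hV2, hV3⟩ := block (r - 1) t (by omega)
  have er : r - 1 + 1 = r := by omega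
  rw [er] at hV2
  obtain ⟨T0, ι0, inst0, V0, w0, hW0, hW1, hW2, hW3⟩ := trimmed r t a hr (by omega) hat
  -- the dimension
  have hdim : Fintype.card (Fin M × ι') + Fintype.card ι0 ≤ d := by
    rw [Fintype.card_prod, Fintype.card_fin]
    have k1 : Fintype.card ι' ≤ r ^ (30 * r) * (2 ^ t) ^ 2 := by
      refine hV0.trans (Nat.mul_le_mul_right _ ?_)
      calc (r - 1) ^ (30 * (r - 1)) ≤ r ^ (30 * (r - 1)) := Nat.pow_le_pow_left (by omega) _
        _ ≤ r ^ (30 * r) := Nat.pow_le_pow_right (by omega) (by omega)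
    have k2 : M * Fintype.card ι' + Fintype.card ι0 ≤
        2 * ((m * (b' + 1)) * (r ^ (30 * r) * (2 ^ t) ^ 2)) := by
      have e1 : M * Fintype.card ι' ≤ (m * (b' + 1)) * (r ^ (30 * r) * (2 ^ t) ^ 2) :=
        Nat.mul_le_mul hMmb k1
      have e2 : Fintype.card ι0 ≤ (m * (b' + 1)) * (r ^ (30 * r) * (2 ^ t) ^ 2) :=
        hW0.trans (Nat.le_mul_of_pos_left _ (by positivity))
      omega
    have k3 : ((M * Fintype.card ι' + Fintype.card ι0 : ℕ) : ℝ) ≤
        2 * (((m * (b' + 1) : ℕ) : ℝ) * ((r : ℝ) ^ (30 * r) * (3 * (1 + Real.log a)) ^ 2)) := by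
      have e : ((M * Fintype.card ι' + Fintype.card ι0 : ℕ) : ℝ) ≤
          ((2 * ((m * (b' + 1)) * (r ^ (30 * r) * (2 ^ t) ^ 2)) : ℕ) : ℝ) := by exact_mod_cast k2
      refine e.trans ?_
      push_cast at htlog ⊢
      apply mul_le_mul_of_nonneg_left _ (by norm_num)
      apply mul_le_mul_of_nonneg_left _ (by positivity)
      apply mul_le_mul_of_nonneg_left _ (by positivity)
      exact pow_le_pow_left₀ (by positivity) htlog 2
    have hr2 : (2 : ℝ) ≤ r := by exact_mod_cast hr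
    have k4 : 2 * (((m * (b' + 1) : ℕ) : ℝ) * ((r : ℝ) ^ (30 * r) * (3 * (1 + Real.log a)) ^ 2)) ≤
        (r : ℝ) ^ (35 * r) * ((m * (b' + 1) : ℕ) : ℝ) * (1 + Real.log a) ^ 2 := by
      have hL : (0 : ℝ) ≤ ((m * (b' + 1) : ℕ) : ℝ) * (1 + Real.log a) ^ 2 := by positivity
      have e1 : 2 * (((m * (b' + 1) : ℕ) : ℝ) * ((r : ℝ) ^ (30 * r) * (3 * (1 + Real.log a)) ^ 2)) =
          ((r : ℝ) ^ (30 * r) * 18) * (((m * (b' + 1) : ℕ) : ℝ) * (1 + Real.log a) ^ 2) := by ring
      rw [e1, mul_assoc ((r : ℝ) ^ (35 * r))]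
      apply mul_le_mul_of_nonneg_right _ hL
      have e2 : (r : ℝ) ^ (35 * r) = (r : ℝ) ^ (30 * r) * (r : ℝ) ^ (5 * r) := by
        rw [← pow_add]; congr 1; ring
      rw [e2]
      apply mul_le_mul_of_nonneg_left _ (by positivity)
      calc (18 : ℝ) ≤ 2 ^ 10 := by norm_num
        _ ≤ (r : ℝ) ^ 10 := pow_le_pow_left₀ (by norm_num) hr2 10
        _ ≤ (r : ℝ) ^ (5 * r) := pow_le_pow_right₀ (by linarith) (by omega)
    exact_mod_cast (k3.trans k4).trans hd
  have hbas2 : ColOn (Og (bas M)) (univ : Finset (Fin M)) 2 M := by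
    refine ⟨fun i => i.1, fun i _ => i.2, ?_⟩
    intro S _ hC
    have h2 : 1 < S.card := by rw [hC.1]; omega
    obtain ⟨x, hx, y, hy, hne⟩ := Finset.one_lt_card.1 h2
    exact ⟨x, hx, y, hy, fun h => hne (Fin.ext h)⟩
  have hU := (model_bas M).ten hV1
  have hUr : ColOn (Og (ten (bas M) w)) ((univ : Finset (Fin M)) ×ˢ V) r M :=
    product_upper (model_bas M) hV1 hV2 hbas2
  obtain ⟨P, hP2, hPr, hPt⟩ := assemble (d := d) hr ha
    hU hW1 hW2 hW3 (hUr.mono hMa) hdim
  refine ⟨P, hP2, hPr, hPt s (b' + 1) hrs hb ?_⟩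
  intro N
  constructor
  · intro h
    by_cases hNa : a ≤ N
    · omega
    · have h1 : ¬ ColOn (Og w) V (r - 1) N := fun h' => hV3 (h'.mono (by omega))
      have h2 := product_lower (m := m) (t := s) (by omega) h1 (by
        have h3 : s - 1 < (s - 1) / (r - 1) * (r - 1) + (r - 1) := by
          have := Nat.lt_div_mul_add (a := s - 1) (b := r - 1) (by omega)
          exact this
        rw [← hm] at h3
        have h4 : (m + 1) * (r - 1) = m * (r - 1) + (r - 1) := by ring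
        omega) h
      have h3 := complete_lower (fun x _ y _ hne => og_bas M x y hne) h2
      rw [Finset.card_univ, Fintype.card_fin, hM] at h3
      simp only [Nat.add_sub_cancel] at h3
      by_contra hlt
      have h4 : N ≤ b' := by omega
      have h5 : N * m ≤ m * b' := by
        rw [mul_comm]; exact Nat.mul_le_mul_left _ h4
      omega
  · intro h
    have h2 := hUr.merge (t := s) m hm1 (by
      have := Nat.div_mul_le_self (s - 1) (r - 1)
      rw [← hm] at this
      omega) (by omega)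
    refine h2.mono ?_
    have e1 : M + m - 1 = (b' + 1) * m := by
      rw [hM]
      simp only [Nat.add_sub_cancel]
      have : (b' + 1) * m = m * b' + m := by ring
      omega
    rw [e1, Nat.mul_div_cancel _ (by omega)]
    exact h

theorem part_three (r a b d : ℕ) (hr : 3 ≤ r) (ha : 2 ≤ a) (hb : 1 ≤ b) (hba : b ≤ a)
    (hd : (r : ℝ) ^ (35 * r) * (1 + Real.log a) ^ 4 ≤ d) :
    ∃ P : Finset (EuclideanSpace ℝ (Fin d)), 2 ≤ P.card ∧ chi r P = a ∧
      ∀ t, r < t → t ≤ 2 * r - 2 → chi t P = b := by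
  classical
  obtain ⟨t, hat, htlog⟩ := exists_t a
  obtain ⟨T1, ι1, inst1, V1, v1, hA0, hA1, _, hA3⟩ :=
    trimmed 2 t b (le_refl 2) hb (hba.trans hat)
  obtain ⟨T2, ι2, inst2, U2, v2, hB0, hB1, hB2, hB3⟩ := block (r - 1) t (by omega)
  obtain ⟨T3, ι3, inst3, V3, v3, hC0, hC1, hC2, hC3⟩ :=
    trimmed r t a (by omega) (by omega) hat
  have er : r - 1 + 1 = r := by omega
  rw [er] at hB2
  -- the dimension
  have hdim : Fintype.card (ι1 × ι2) + Fintype.card ι3 ≤ d := by
    rw [Fintype.card_prod]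
    have k4 : Fintype.card ι1 * Fintype.card ι2 ≤ r ^ (30 * r + 8) * (2 ^ t) ^ 4 := by
      calc Fintype.card ι1 * Fintype.card ι2
          ≤ (2 ^ (30 * 2) * (2 ^ t) ^ 2) * ((r - 1) ^ (30 * (r - 1)) * (2 ^ t) ^ 2) :=
            Nat.mul_le_mul hA0 hB0
        _ ≤ (r ^ 38 * (2 ^ t) ^ 2) * (r ^ (30 * (r - 1)) * (2 ^ t) ^ 2) := by
            apply Nat.mul_le_mul
            · apply Nat.mul_le_mul_right
              calc 2 ^ (30 * 2) ≤ 3 ^ 38 := by norm_num
                _ ≤ r ^ 38 := Nat.pow_le_pow_left hr 38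
            · apply Nat.mul_le_mul_right
              exact Nat.pow_le_pow_left (by omega) _
        _ = (r ^ 38 * r ^ (30 * (r - 1))) * (2 ^ t) ^ 4 := by ring
        _ = r ^ (30 * r + 8) * (2 ^ t) ^ 4 := by
            rw [← pow_add]
            congr 2
            omega
    have k5 : Fintype.card ι3 ≤ r ^ (30 * r + 8) * (2 ^ t) ^ 4 := by
      calc Fintype.card ι3 ≤ r ^ (30 * r) * (2 ^ t) ^ 2 := hC0
        _ ≤ r ^ (30 * r + 8) * (2 ^ t) ^ 4 :=
            Nat.mul_le_mul (Nat.pow_le_pow_right (by omega) (by omega))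
              (Nat.pow_le_pow_right (by positivity) (by norm_num))
    have k6 : Fintype.card ι1 * Fintype.card ι2 + Fintype.card ι3 ≤
        2 * (r ^ (30 * r + 8) * (2 ^ t) ^ 4) := by omega
    have k7 : ((Fintype.card ι1 * Fintype.card ι2 + Fintype.card ι3 : ℕ) : ℝ) ≤
        2 * ((r : ℝ) ^ (30 * r + 8) * (3 * (1 + Real.log a)) ^ 4) := by
      have e : ((Fintype.card ι1 * Fintype.card ι2 + Fintype.card ι3 : ℕ) : ℝ) ≤
          ((2 * (r ^ (30 * r + 8) * (2 ^ t) ^ 4) : ℕ) : ℝ) := by exact_mod_cast k6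
      refine e.trans ?_
      push_cast at htlog ⊢
      apply mul_le_mul_of_nonneg_left _ (by norm_num)
      apply mul_le_mul_of_nonneg_left _ (by positivity)
      exact pow_le_pow_left₀ (by positivity) htlog 4
    have hr3 : (3 : ℝ) ≤ r := by exact_mod_cast hr
    have k8 : 2 * ((r : ℝ) ^ (30 * r + 8) * (3 * (1 + Real.log a)) ^ 4) ≤
        (r : ℝ) ^ (35 * r) * (1 + Real.log a) ^ 4 := by
      have hL : (0 : ℝ) ≤ (1 + Real.log a) ^ 4 := by positivity
      have e1 : 2 * ((r : ℝ) ^ (30 * r + 8) * (3 * (1 + Real.log a)) ^ 4) =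
          ((r : ℝ) ^ (30 * r + 8) * 162) * (1 + Real.log a) ^ 4 := by ring
      rw [e1]
      apply mul_le_mul_of_nonneg_right _ hL
      calc (r : ℝ) ^ (30 * r + 8) * 162 ≤ (r : ℝ) ^ (30 * r + 8) * (r : ℝ) ^ 5 := by
            apply mul_le_mul_of_nonneg_left _ (by positivity)
            calc (162 : ℝ) ≤ 3 ^ 5 := by norm_num
              _ ≤ (r : ℝ) ^ 5 := pow_le_pow_left₀ (by norm_num) hr3 5
        _ = (r : ℝ) ^ (30 * r + 13) := by rw [← pow_add]
        _ ≤ (r : ℝ) ^ (35 * r) := pow_le_pow_right₀ (by linarith) (by omega)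
    exact_mod_cast (k7.trans k8).trans hd
  have hup : ∀ N, b ≤ N → ColOn (Og (ten v1 v2)) (V1 ×ˢ U2) r N := fun N hN =>
    product_upper hA1 hB1 hB2 ((hA3 N).2 hN)
  obtain ⟨P, hP2, hPr, hPt⟩ := assemble (d := d) (by omega : 2 ≤ r) ha
    (hA1.ten hB1) hC1 hC2 hC3 (hup a hba) hdim
  refine ⟨P, hP2, hPr, ?_⟩
  intro s hrs hs2
  apply hPt s b hrs hb
  intro N
  constructor
  · intro h
    by_cases hN : 2 ^ (2 ^ t) ≤ N
    · omega
    · have h1 : ¬ ColOn (Og v2) U2 (r - 1) N := fun h' => hB3 (h'.mono (by omega))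
      have h2 := product_lower (m := 1) (t := s) (by omega) h1 (by omega) h
      exact (hA3 N).1 h2
  · intro h
    exact (hup N h).up hrs.le

end Pool.Dia50b
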